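import Pool.Agent.AK.TAll
import Pool.Agent.AK.NAll

/-!
# MP_4ed1f9_lc: the border between P and #SAT for the leading digits of #φ is the Ackermann function

`CNF`, `vars`, `nv` (the number `n` of variables that occur), `count` (the number `#φ` of satisfying assignments), `width` (maximal
length of a clause), `Mono` (no negations), the Ackermann hierarchy `A` (index `j` for the function `A_(j+2)` of the paper,
`A_2 x = x + 2^(x+1)`, `A_(k+1) x = x + 1 + A_k^(x+1) (0)`), `B k q = A_(k-1)^(q) (0)`, `alk k n` (the least `q` with `n ≤ B k q`;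
`alk 3` is `log*` up to a constant) and `al n` (the least `k ≥ 4` with `n ≤ B (k-1) (k-1)`, inverse Ackermann function) are defined in
`Pool/Agent/AK/Defs.lean`; `PolyTime` (polynomial time on Mathlib's Turing machines `Turing.TM2ComputableInPolyTime`, numbers in
binary) in `Pool/Agent/PolyTime/Typed.lean`; `UPoly k`: `k n` is computed in time polynomial in `n`.

The question `Q(k, t)`: given a CNF `φ` with `n` variables and clauses of length at most `k n`, is `#φ ≥ 2^(n - t n)`? (In other words: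
are the first `t n` binary digits of `#φ` not all zero? `t = 1` is majority.) One theorem, the border in the plane `(k, t)`:

* one polynomial time algorithm computes the first `alk k n - 8` digits of `#φ`, for all widths `k ≥ 3`;
* `Q(k, t)` is #SAT-hard, even for monotone formulas, for `t n = alk (k n) n`, and in general as soon as `log2 (B k (t + 1)) ≥ n^c`
  (and `n - t ≥ n^c`);
* the row `t = 1`, majority: in P for width at most `al n - 2`, #SAT-hard for width `al n`.

The reason is that the gaps in the set of the densities `#φ / 2^n` of CNFs of width `k` are of Ackermann size: `StSN` in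
`Pool/Agent/AK/StN.lean`, proved in `Pool/Agent/AK/NAll.lean` (`all_SN`).
-/

set_option autoImplicit false

namespace Pool.Agent.Results.MP_4ed1f9_lc.MajorityAckermann

open Pool.Agent.AK Pool.Agent.PolyTime

/-- The question `#ψ ≥ 2^(n - t n)` for monotone CNFs `ψ` with `n` variables and of width at most `k n` is hard for #SAT: the questions
`#φ ≥ N` for arbitrary CNFs `φ` are reduced to it in polynomial time (many-one), and it is in P if and only if #SAT is in FP. -/
def Hard (k t : ℕ → ℕ) : Prop :=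
  (∃ R : CNF × ℕ → CNF, PolyTime R ∧ ∀ (φ : CNF) (N : ℕ), N ≤ 2 ^ nv φ →
    Mono (R (φ, N)) ∧ width (R (φ, N)) ≤ k (nv (R (φ, N))) ∧
    (2 ^ (nv (R (φ, N)) - t (nv (R (φ, N)))) ≤ count (R (φ, N)) ↔ N ≤ count φ)) ∧
  ((∃ G : CNF → Bool, PolyTime G ∧ ∀ φ, width φ ≤ k (nv φ) → Mono φ →
    (G φ = true ↔ 2 ^ (nv φ - t (nv φ)) ≤ count φ)) ↔ PolyTime count)

theorem half_iff (n c : ℕ) : 2 ^ n ≤ 2 * c ↔ 2 ^ (n - 1) ≤ c := by
  rcases n with _ | n
  · simp only [Nat.zero_sub, pow_zero]
    omega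
  · rw [Nat.add_sub_cancel, pow_succ]
    omega

theorem hard_of (k t : ℕ → ℕ) (ht : UPoly t)
    (h : ∃ d n0 : ℕ, ∀ n, n0 ≤ n → 3 ≤ k n ∧ 1 ≤ t n ∧ n ≤ Nat.log 2 (B (k n) (t n + 1)) ^ d ∧ n ≤ (n - t n) ^ d) :
    Hard k t :=
  ⟨all_HT k t ht h, all_HTi k t ht h⟩

theorem result :
    -- majority: easy for width at most `al n - 2`, hard for width `al n`
    ((∃ F : CNF → Bool, PolyTime F ∧ ∀ φ, width φ + 2 ≤ al (nv φ) → (F φ = true ↔ 2 ^ (nv φ - 1) ≤ count φ)) ∧
      Hard al fun _ => 1) ∧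
    -- all widths `k ≥ 3`: one algorithm computes the first `alk k n - 8` digits
    (∃ F : CNF → ℕ, PolyTime F ∧ ∀ (φ : CNF) (k t : ℕ), 3 ≤ k → width φ ≤ k →
      t + 8 ≤ alk k (nv φ) → F φ / 2 ^ (nv φ - t) = count φ / 2 ^ (nv φ - t)) ∧
    -- the first `alk k n` digits are hard, for every width function `k`
    (∀ k : ℕ → ℕ, UPoly k → (∀ n, 3 ≤ k n) → Hard k fun n => alk (k n) n) ∧
    -- the hard side in general
    ∀ k t : ℕ → ℕ, UPoly t →
      (∃ d n0 : ℕ, ∀ n, n0 ≤ n →
        3 ≤ k n ∧ 1 ≤ t n ∧ n ≤ Nat.log 2 (B (k n) (t n + 1)) ^ d ∧ n ≤ (n - t n) ^ d) → Hard k t := by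
  refine ⟨⟨?_, hard_of al (fun _ => 1) all_row.1 all_row.2⟩, all_EN,
    fun k hk h3 => hard_of k _ (all_uni k hk h3).1 (all_uni k hk h3).2, hard_of⟩
  obtain ⟨F, hF, h⟩ := all_M1
  exact ⟨F, hF, fun φ hφ => (h φ hφ).trans (half_iff _ _)⟩

end Pool.Agent.Results.MP_4ed1f9_lc.MajorityAckermann
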