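import Pool.Agent.STP.Two
import Pool.Agent.STP.Bad
import Pool.Agent.STP.Cnt
import Pool.Agent.STS.SumL
import Pool.Agent.STS.PthL
import Pool.Agent.STS.CylL
import Pool.Agent.STS.NodL
import Pool.Agent.STS.Scl
import Pool.Agent.STS.Afd
import Pool.Agent.STS.Tri
import Pool.Agent.STS.WlkS
import Pool.Agent.STS.WldS
import Pool.Agent.STH.One
import Pool.Agent.STH.Cls
import Pool.Agent.STH.Tup
import Pool.Agent.STH.Bal
import Pool.Agent.STH.Cyl
import Pool.Agent.STH.Nod
import Pool.Agent.STD.Den
import Pool.Agent.STD.Grd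

/-!
# MP_4ed1f9_lc: knowledge compilation does not beat the list of all models

The number of models of a Boolean function can be read off from a decision diagram, a decision-DNNF
or any d-DNNF which computes it; exact model counters of the DPLL type (branching, caching of
subformulas, splitting into components) leave such an object behind as their trace, and knowledge
compilers build one explicitly. For random `k`-CNF formulas `φ` (uniform, or with a planted model),
of any number `M ≥ D ε 2 ^ k n` of clauses, where `ε = (log k) ^ 2 / k`, each of these objects is at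
most `2 ^ (C ε n)` times smaller than the list of all models of `φ`; for `M = D ε 2 ^ k n` its size
is at least `2 ^ ((1 - O(ε)) n)`. This holds even for nondeterministic DNNFs which imply `φ` and have
only a small part of its models, and even if all subproblems of the tractable classes (Horn, 2-CNF
and affine systems, and functions of few variables) may be used for free as leaves.
-/

set_option autoImplicit false

namespace Pool.Agent.Results.MP_4ed1f9_lc.StrongExponential

/-- A formula with `M` clauses in `n` variables: a sequence of `M` clauses, a clause being a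
sequence of `k` literals; the literal `(i, b)` is true at `x` if `x i = b`. -/
abbrev Formula (n k M : ℕ) := Fin M → Fin k → Fin n × Bool

/-- The point `x` is a model of `φ`. -/
def Sat {n k M : ℕ} (φ : Formula n k M) (x : Fin n → Bool) : Prop :=
  ∀ i, ∃ j, x (φ i j).1 = (φ i j).2

/-- The set `A` is closed under an operation `t` of three arguments which acts coordinatewise, and
which is in every coordinate one of the four operations of Schaefer: conjunction or disjunction (of
the last two arguments), majority, sum modulo 2. This is the case for the sets of solutions of Horn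
formulas, dual Horn formulas, renamable Horn formulas, 2-CNFs and systems of linear equations
modulo 2, and for the projections of such sets. -/
def SchaeferClosed {n : ℕ} (A : (Fin n → Bool) → Prop) : Prop :=
  ∃ t : Fin n → Bool → Bool → Bool → Bool,
    (∀ i, (∀ a b c, t i a b c = (b && c)) ∨ (∀ a b c, t i a b c = (b || c)) ∨
      (∀ a b c, t i a b c = ((a && b) || (a && c) || (b && c))) ∨
      (∀ a b c, t i a b c = (a ^^ b ^^ c))) ∧
    ∀ x y w, A x → A y → A w → A fun i => t i (x i) (y i) (w i)

/-- `A` is the set of solutions of a system of linear equations modulo 2. -/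
def Affine {n : ℕ} (A : (Fin n → Bool) → Prop) : Prop :=
  ∀ x y w, A x → A y → A w → A fun i => (x i ^^ y i ^^ w i)

/-- There is a partition of the cube into at most `2 ^ m` affine sets such that `g` is constant on
each of them. (For example, `g` depends on `m` variables only, or on `m` sums modulo 2 of
variables.) -/
def AffinePieces {n : ℕ} {α : Type} (m : ℕ) (g : (Fin n → Bool) → α) : Prop :=
  ∃ c : (Fin n → Bool) → Fin (2 ^ m), (∀ j, Affine fun x => c x = j) ∧
    ∀ x x', c x = c x' → g x = g x'

/-- A DNNF with `s` nodes in the `n` variables `x` and the `q` auxiliary variables `z`. The node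
`v` has a set `vars v` of variables, a set `aux v` of auxiliary variables and a set `val v` of
accepted pairs `(x, z)` which depends on these variables only, and is
* a leaf, on any number of variables, such that the set of the `x` with an accepted pair `(x, z)`
  is a union of at most `2 ^ m` sets closed under operations of Schaefer (for example, a leaf with
  at most `m` variables `x`), or
* a conjunction of two nodes with no variable in common, or
* a disjunction of two nodes.
The inputs of a node come earlier in the order of the nodes. -/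
structure DNNF (n q m s : ℕ) where
  /-- the variables of a node -/
  vars : Fin s → Finset (Fin n)
  /-- the auxiliary variables of a node -/
  aux : Fin s → Finset (Fin q)
  /-- the pairs accepted by a node -/
  val : Fin s → (Fin n → Bool) → (Fin q → Bool) → Prop
  /-- the rules -/
  ok : ∀ v : Fin s,
    ((∃ A : Fin (2 ^ m) → (Fin n → Bool) → Prop, (∀ j, SchaeferClosed (A j)) ∧
        ∀ x, (∃ z, val v x z) ↔ ∃ j, A j x) ∧
      ∀ x x' z z', (∀ i ∈ vars v, x i = x' i) → (∀ j ∈ aux v, z j = z' j) →
        (val v x z ↔ val v x' z')) ∨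
    (∃ a b : Fin s, a < v ∧ b < v ∧ Disjoint (vars a) (vars b) ∧ Disjoint (aux a) (aux b) ∧
      vars v = vars a ∪ vars b ∧ aux v = aux a ∪ aux b ∧
      ∀ x z, val v x z ↔ val a x z ∧ val b x z) ∨
    (∃ a b : Fin s, a < v ∧ b < v ∧ vars v = vars a ∪ vars b ∧ aux v = aux a ∪ aux b ∧
      ∀ x z, val v x z ↔ val a x z ∨ val b x z)

/-- A deterministic DNNF with `s` nodes in `n` variables. The node `v` has a set `vars v` of
variables and a set `val v` of accepted points which depends on these variables only, and is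
* a leaf, on any number of variables, which is constant on the parts of a partition of the cube
  into at most `2 ^ m` affine sets, or
* a conjunction of two nodes with no variable in common, or
* a disjunction of two nodes which accept no point in common.
The inputs of a node come earlier in the order of the nodes. -/
structure DetDNNF (n m s : ℕ) where
  /-- the variables of a node -/
  vars : Fin s → Finset (Fin n)
  /-- the points accepted by a node -/
  val : Fin s → (Fin n → Bool) → Prop
  /-- the rules -/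
  ok : ∀ v : Fin s,
    (AffinePieces m (val v) ∧
      ∀ x x', (∀ i ∈ vars v, x i = x' i) → (val v x ↔ val v x')) ∨
    (∃ a b : Fin s, a < v ∧ b < v ∧ Disjoint (vars a) (vars b) ∧ vars v = vars a ∪ vars b ∧
      ∀ x, val v x ↔ val a x ∧ val b x) ∨
    (∃ a b : Fin s, a < v ∧ b < v ∧ vars v = vars a ∪ vars b ∧
      (∀ x, val v x ↔ val a x ∨ val b x) ∧ ∀ x, ¬ (val a x ∧ val b x))

/-- A program over the field `K` in `n` variables with `s` nodes. The node `v` has a set `vars v`
of variables and a function `val v` of these variables with values in `K`, and is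
* a leaf, on any number of variables, which is constant on the parts of a partition of the cube
  into at most `2 ^ m` affine sets, or
* a test: `a` if `t = 0` and `b` if `t = 1`, where the node `t` has the values `0` and `1` only and
  no variable in common with the nodes `a` and `b`, or
* a gate `α + β a + γ b + δ a b`, applied to two nodes `a`, `b` with no variable in common.
The inputs of a node come earlier in the order of the nodes. -/
structure Program (K : Type) [Field K] (n m s : ℕ) where
  /-- the variables of a node -/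
  vars : Fin s → Finset (Fin n)
  /-- the function computed by a node -/
  val : Fin s → (Fin n → Bool) → K
  /-- the rules -/
  ok : ∀ v : Fin s,
    (AffinePieces m (val v) ∧
      ∀ x x' : Fin n → Bool, (∀ i ∈ vars v, x i = x' i) → val v x = val v x') ∨
    (∃ t a b : Fin s, t < v ∧ a < v ∧ b < v ∧ Disjoint (vars t) (vars a ∪ vars b) ∧
      vars v = vars t ∪ (vars a ∪ vars b) ∧
      ∀ x, (val t x = 0 ∧ val v x = val a x) ∨ (val t x = 1 ∧ val v x = val b x)) ∨
    (∃ a b : Fin s, a < v ∧ b < v ∧ Disjoint (vars a) (vars b) ∧ vars v = vars a ∪ vars b ∧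
      ∃ α β γ δ : K, ∀ x, val v x = α + β * val a x + γ * val b x + δ * (val a x * val b x))

/-- Nodes of DNNFs find few models of `φ`: let `h` be the projection to the variables `x` of a node
of a DNNF with `s` nodes (with any number of auxiliary variables, and with leaves which are unions
of at most `2 ^ m` sets closed under operations of Schaefer); if `h` implies `φ`, then `h` has at
most `L * s * 2 ^ m` models. -/
def HardForDNNF {n k M : ℕ} (φ : Formula n k M) (L : ℝ) : Prop :=
  ∀ (q m s : ℕ) (D : DNNF n q m s) (r : Fin s), (∀ x z, D.val r x z → Sat φ x) →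
    (Nat.card {x // ∃ z, D.val r x z} : ℝ) ≤ L * (s * 2 ^ m)

/-- A node of a deterministic DNNF with `s` nodes (with leaves which are constant on at most
`2 ^ m` affine pieces) differs from `φ` in at least `#φ - L * s * 2 ^ m` points. -/
def HardForDetDNNF {n k M : ℕ} (φ : Formula n k M) (L : ℝ) : Prop :=
  ∀ (m s : ℕ) (D : DetDNNF n m s) (r : Fin s),
    (Nat.card {x // Sat φ x} : ℝ) ≤ Nat.card {x // ¬ (D.val r x ↔ Sat φ x)} + L * (s * 2 ^ m)

/-- A node of a program with `s` nodes over a field (with leaves which are constant on at most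
`2 ^ m` affine pieces) differs from `φ` in at least `(1 - δ) * #φ - L * s * 2 ^ m` points. -/
def HardForPrograms {n k M : ℕ} (φ : Formula n k M) (δ L : ℝ) : Prop :=
  ∀ (K : Type) [Field K] (m s : ℕ) (P : Program K n m s) (r : Fin s),
    (1 - δ) * Nat.card {x // Sat φ x} ≤
      Nat.card {x // Sat φ x ∧ P.val r x ≠ 1 ∨ ¬ Sat φ x ∧ P.val r x ≠ 0} + L * (s * 2 ^ m)

/-- There are constants `C`, `D` such that the following holds for every `k ≥ 2`, with
`ε = (log k) ^ 2 / k` and `L = 2 ^ (C ε n)`, for all large `n` and all `M ≥ M₀ = ⌊D ε n 2 ^ k⌋`.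

1. All but a fraction `2 ^ (- n)` of the formulas `φ` with `M` clauses of `k` literals in `n`
variables are hard for DNNFs and for deterministic DNNFs with the constant `L`.

2. For all but a fraction `2 ^ (- ε n)` of the pairs of such a formula `φ` and a model of `φ` (in
other words, with probability `1 - 2 ^ (- ε n)` for a random formula with a planted model), `φ` has
moreover at least `2 ^ (- 2 ε n) * (2 ^ n * (1 - 2 ^ (- k)) ^ M)` models and, if `M = M₀`, is hard
for programs over fields with the constants `δ = 2 ^ (- ε n)` and `L`.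

So a DNNF (with leaves of the width `m`) which computes `φ` has at least `#φ / (2 ^ (C ε n) 2 ^ m)`
nodes: it is not much smaller than the list of all models. For `M = M₀` this is
`2 ^ ((1 - O(ε)) n)`. Since the constant function `0` differs from `φ` in `#φ` points, already the
d-DNNFs and programs which are closer to `φ` than `0` by `2 * 2 ^ (- ε n) * #φ` points have this
size. -/
theorem result : ∃ C D : ℝ, 0 < D ∧ ∀ k : ℕ, 2 ≤ k → ∃ n₀ : ℕ, ∀ n : ℕ, n₀ ≤ n →
    ∀ ε : ℝ, ε = Real.log k ^ 2 / k → ∀ M : ℕ, ⌊D * ε * n * 2 ^ k⌋₊ ≤ M →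
      2 ^ n * Nat.card {φ : Formula n k M // ¬
        (HardForDNNF φ ((2 : ℝ) ^ (C * ε * n)) ∧ HardForDetDNNF φ ((2 : ℝ) ^ (C * ε * n)))} ≤
        Nat.card (Formula n k M) ∧
      (Nat.card {p : Formula n k M × (Fin n → Bool) // Sat p.1 p.2 ∧ ¬
        (HardForDNNF p.1 ((2 : ℝ) ^ (C * ε * n)) ∧ HardForDetDNNF p.1 ((2 : ℝ) ^ (C * ε * n)) ∧
          (2 : ℝ) ^ (-(2 * ε * n)) * (2 ^ n * (1 - (1 / 2) ^ k) ^ M) ≤ Nat.card {x // Sat p.1 x} ∧
          (M = ⌊D * ε * n * 2 ^ k⌋₊ →
            HardForPrograms p.1 ((2 : ℝ) ^ (-(ε * n))) ((2 : ℝ) ^ (C * ε * n))))} : ℝ) ≤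
        (2 : ℝ) ^ (-(ε * n)) * Nat.card {p : Formula n k M × (Fin n → Bool) // Sat p.1 p.2} := by
  obtain ⟨C, D, hD, hC⟩ := Pool.Agent.STP.thm_Two (Pool.Agent.STP.thm_Cor
    (Pool.Agent.STS.thm_SumL (Pool.Agent.STH.thm_Cyl Pool.Agent.STH.thm_Nod)
      (Pool.Agent.STS.thm_CylL Pool.Agent.STS.thm_NodL) Pool.Agent.STS.thm_PthL)
    Pool.Agent.STH.thm_Bal
    (Pool.Agent.STP.thm_Bad (Pool.Agent.STH.thm_One Pool.Agent.STH.thm_Cls
      Pool.Agent.STH.thm_Tup Pool.Agent.STH.thm_Bal) Pool.Agent.STD.thm_Grd
      Pool.Agent.STS.thm_Tri)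
    Pool.Agent.STD.thm_Den Pool.Agent.STS.thm_Scl Pool.Agent.STS.thm_Afd)
    Pool.Agent.STP.thm_Tot Pool.Agent.STP.thm_Few Pool.Agent.STP.thm_Ext
  refine ⟨C, D, hD, fun k hk => ?_⟩
  obtain ⟨n₀, hn₀⟩ := hC k hk
  refine ⟨n₀, fun n hn ε hε M hM => ?_⟩
  obtain ⟨hu, hp⟩ := hn₀ n hn ε hε M hM
  have hpos : ∀ (s : ℕ), Fin s → 1 ≤ s := fun s v => lt_of_le_of_lt (Nat.zero_le _) v.isLt
  have hgd : ∀ φ : Formula n k M,
      Pool.Agent.STP.Gd (Pool.Agent.STH.Mod φ) ((2 : ℝ) ^ (C * ε * n)) →
      HardForDNNF φ ((2 : ℝ) ^ (C * ε * n)) ∧ HardForDetDNNF φ ((2 : ℝ) ^ (C * ε * n)) := by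
    rintro φ ⟨S, hS1, hS5, hdense, hthin, haff⟩
    have hSb : ∀ (s m : ℕ), 1 ≤ s → ((s : ℝ) + 1) * (4 * (S : ℝ) ^ 3 * 2 ^ m) ≤
        (2 : ℝ) ^ (C * ε * n) * (s * 2 ^ m) := by
      intro s m hs
      have hs1 : (1 : ℝ) ≤ s := by exact_mod_cast hs
      have hS1R : (1 : ℝ) ≤ S := by exact_mod_cast hS1
      have e1 : (S : ℝ) ^ 3 ≤ (S : ℝ) ^ 5 := pow_le_pow_right₀ hS1R (by norm_num)
      calc ((s : ℝ) + 1) * (4 * (S : ℝ) ^ 3 * 2 ^ m) ≤ (2 * s) * (4 * (S : ℝ) ^ 3 * 2 ^ m) :=
            mul_le_mul_of_nonneg_right (by linarith) (by positivity)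
        _ = (8 * (S : ℝ) ^ 3) * (s * 2 ^ m) := by ring
        _ ≤ (2 : ℝ) ^ (C * ε * n) * (s * 2 ^ m) :=
            mul_le_mul_of_nonneg_right (by linarith) (by positivity)
    refine ⟨?_, ?_⟩
    · intro q m s E r hE
      have hw := Pool.Agent.STS.thm_WlkS n q m s ⟨E.vars, E.aux, E.val, E.ok⟩ r
        (Pool.Agent.STH.Mod φ) S hS1 hdense hthin hE
      have hw' : ((Nat.card {x // ∃ z, E.val r x z} : ℕ) : ℝ) ≤
          ((s : ℝ) + 1) * (4 * (S : ℝ) ^ 3 * 2 ^ m) := by exact_mod_cast hw
      exact hw'.trans (hSb s m (hpos s r))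
    · intro m s E r
      have hw := Pool.Agent.STS.thm_WldS n m s ⟨E.vars, E.val, E.ok⟩ r
        (Pool.Agent.STH.Mod φ) S hS1 hdense haff
      have hw' : ((Nat.card {x // Pool.Agent.STH.Mod φ x} : ℕ) : ℝ) ≤
          ((Nat.card {x // ¬ (E.val r x ↔ Pool.Agent.STH.Mod φ x)} : ℕ) : ℝ) +
            ((s : ℝ) + 1) * (4 * (S : ℝ) ^ 3 * 2 ^ m) := by exact_mod_cast hw
      exact hw'.trans (add_le_add le_rfl (hSb s m (hpos s r)))
  refine ⟨le_trans (Nat.mul_le_mul_left _ ?_) hu, le_trans (Nat.cast_le.mpr ?_) hp⟩
  · refine Nat.card_le_card_of_injective (fun φ => ⟨φ.1, fun hc => φ.2 (hgd φ.1 hc)⟩) ?_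
    intro φ φ' h
    exact Subtype.ext (congrArg Subtype.val h :)
  · have hall : ∀ p : Formula n k M × (Fin n → Bool),
        (((2 : ℝ) ^ (-(2 * ε * n)) * (2 ^ n * (1 - (1 / 2) ^ k) ^ M) ≤
            ((Nat.card {x // Pool.Agent.STH.Mod p.1 x} : ℕ) : ℝ) ∧
          Pool.Agent.STP.Gd (Pool.Agent.STH.Mod p.1) ((2 : ℝ) ^ (C * ε * n)) ∧
          (M = ⌊D * ε * n * 2 ^ k⌋₊ →
            Pool.Agent.STP.Prg p.1 ε ((2 : ℝ) ^ (C * ε * n)))) : Prop) →
        (HardForDNNF p.1 ((2 : ℝ) ^ (C * ε * n)) ∧ HardForDetDNNF p.1 ((2 : ℝ) ^ (C * ε * n)) ∧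
          (2 : ℝ) ^ (-(2 * ε * n)) * (2 ^ n * (1 - (1 / 2) ^ k) ^ M) ≤ Nat.card {x // Sat p.1 x} ∧
          (M = ⌊D * ε * n * 2 ^ k⌋₊ →
            HardForPrograms p.1 ((2 : ℝ) ^ (-(ε * n))) ((2 : ℝ) ^ (C * ε * n)))) := by
      rintro p ⟨h1, h2, h3⟩
      refine ⟨(hgd p.1 h2).1, (hgd p.1 h2).2, h1, ?_⟩
      intro hM0 K _ m s P r
      exact h3 hM0 K s m ⟨P.vars, P.val, P.ok⟩ r
    refine Nat.card_le_card_of_injective
      (fun p => ⟨p.1, p.2.1, fun hc => p.2.2 (hall p.1 hc)⟩) ?_
    intro p p' hpp
    exact Subtype.ext (congrArg Subtype.val hpp :)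

end Pool.Agent.Results.MP_4ed1f9_lc.StrongExponential
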