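import Pool.Agent.SYH.AsmH
import Pool.Agent.SYH.AllE
import Pool.Agent.SYH.Bool
import Pool.Agent.SYH.Graph
import Pool.Agent.SYH.Quasi

/-!
# Counting homomorphisms by symmetric circuits: the complete dichotomy
-/

set_option autoImplicit false

namespace Pool.Agent.Results.MP_4ed1f9_lc.SymmetricDichotomy

open Pool.Agent.SYH

variable {σ D : Type} {ar : σ → ℕ}

/-- The easy case: for some `K` and all `n`, a circuit with all `n!` symmetries and at most
`(n + 2) ^ K` gates computes the number of homomorphisms from structures on `n` elements to `Γ`. -/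
def EasyCase (Γ : Str ar D) : Prop :=
  ∃ K : ℕ, ∀ n : ℕ, ∃ (G P T : Type) (_ : Fintype G) (C : Circuit (Atom ar (Fin n)) G P T),
    Computes C Γ ∧ (∀ ρ, IsSymm C ρ) ∧ Fintype.card G ≤ (n + 2) ^ K

/-- The hard case, exact values: for some `c > 0` and all large `n`, a circuit with `s` gates that
computes the number of homomorphisms from structures on `n` elements to `Γ` has at most
`s * n! / 2 ^ (c n)` symmetries. -/
def HardExact (Γ : Str ar D) : Prop :=
  ∃ (c : ℝ) (n₀ : ℕ), 0 < c ∧ ∀ n ≥ n₀, ∀ (G P T : Type) [Fintype G]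
    (C : Circuit (Atom ar (Fin n)) G P T), Computes C Γ →
    (2 : ℝ) ^ (c * n) * Nat.card {ρ : Equiv.Perm (Fin n) // IsSymm C ρ} ≤
      Fintype.card G * n.factorial

/-- The hard case, approximate values: for some `K` and all `k ≥ 1` and `n ≥ K k`, every circuit
with `s` gates and more than `s * n! / (n choose k)` symmetries has the same output on two
structures `I`, `I'` on `n` elements with at most `K n` tuples, such that `I` has a homomorphism to
`Γ`, and at least `exp (n / 2 ^ (K k))` times as many as `I'`. -/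
def HardApprox (Γ : Str ar D) : Prop :=
  ∃ K : ℕ, 1 ≤ K ∧ ∀ n k : ℕ, 1 ≤ k → K * k ≤ n → ∀ (G P T : Type) [Fintype G]
    (C : Circuit (Atom ar (Fin n)) G P T),
    Fintype.card G * n.factorial < n.choose k * Nat.card {ρ : Equiv.Perm (Fin n) // IsSymm C ρ} →
    ∃ (I I' : Str ar (Fin n)) (v v' : G → T), C.IsRun (holds I) v ∧ C.IsRun (holds I') v' ∧
      v C.out = v' C.out ∧ tuples I ≤ K * n ∧ tuples I' ≤ K * n ∧ 0 < homs Γ I ∧
      Real.exp ((n : ℝ) / 2 ^ (K * k)) * (homs Γ I' : ℝ) ≤ (homs Γ I : ℝ)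

/-- The hard case, completely symmetric circuits with at most `n ^ (c log n)` gates: for some `K`, all
`ε > 0`, some `c > 0` and all large `n` they have the same output on two structures `I`, `I'` on `n`
elements with at most `K n` tuples, such that `I` has a homomorphism to `Γ`, and at least
`exp (n ^ (1 - ε))` times as many as `I'`. -/
def HardQuasi (Γ : Str ar D) : Prop :=
  ∃ K : ℕ, ∀ ε : ℝ, 0 < ε → ∃ (c : ℝ) (n₀ : ℕ), 0 < c ∧ ∀ n ≥ n₀, ∀ (G P T : Type) [Fintype G]
    (C : Circuit (Atom ar (Fin n)) G P T), (∀ ρ, IsSymm C ρ) →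
    (Fintype.card G : ℝ) ≤ (n : ℝ) ^ (c * Real.log n) →
    ∃ (I I' : Str ar (Fin n)) (v v' : G → T), C.IsRun (holds I) v ∧ C.IsRun (holds I') v' ∧
      v C.out = v' C.out ∧ tuples I ≤ K * n ∧ tuples I' ≤ K * n ∧ 0 < homs Γ I ∧
      Real.exp ((n : ℝ) ^ (1 - ε)) * (homs Γ I' : ℝ) ≤ (homs Γ I : ℝ)

/-- For every finite template `Γ`: if `Γ` is balanced and has a majority operation, the numbers of
homomorphisms to `Γ` are computed by symmetric circuits with polynomially many gates. Otherwise
circuits with few gates and many symmetries do not compute them, not even approximately. A Boolean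
template is in the first case iff each relation is empty or given by conditions `u i = c`,
`u i = u j`, `u i ≠ u j`; a graph `H` (loops allowed) iff `H a b`, `H b c`, `H c d` imply `H a d`,
that is, iff every component is complete bipartite or complete with all loops. -/
theorem result :
    (∀ (σ D : Type) (ar : σ → ℕ) [Finite σ] [Finite D] [Nonempty D] (Γ : Str ar D),
      (Balanced Γ ∧ HasMajority Γ → EasyCase Γ) ∧
      (¬ (Balanced Γ ∧ HasMajority Γ) → HardExact Γ ∧ HardApprox Γ ∧ HardQuasi Γ)) ∧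
    (∀ (σ : Type) (ar : σ → ℕ) (Γ : Str ar Bool),
      (Balanced Γ ∧ HasMajority Γ) ↔ ∀ R, IsConj (Γ R)) ∧
    ∀ (D : Type) [Finite D] (H : D → D → Prop), (∀ x y, H x y → H y x) →
      ((Balanced (grTpl H) ∧ HasMajority (grTpl H)) ↔
        ∀ a b c d, H a b → H b c → H c d → H a d) := by
  refine ⟨?_, thm_Bool, thm_Graph⟩
  intro σ D ar _ _ _ Γ
  refine ⟨fun h => all_Easy σ D ar Γ h.1 h.2, fun h => ?_⟩
  have := Fintype.ofFinite D
  obtain ⟨K, hK, hK'⟩ := AsmH_hardP σ D ar Γ (AsmH_feels Γ h)
  exact ⟨AsmA_hard σ D ar Γ (AsmH_feels Γ h), ⟨K, hK, hK'⟩, K,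
    fun ε hε => Quasi_main Γ K hK hK' ε hε⟩

end Pool.Agent.Results.MP_4ed1f9_lc.SymmetricDichotomy
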